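import Pool.Agent.N483.KM.StmO

/-!
Bounded sublevel sets of families of separable convex functions.
-/

set_option autoImplicit false

namespace Pool.Agent.N130.KM

open Set Filter Topology
open Pool.Agent.R754.KG (E)
open Pool.Agent.N483.KM (SL S_OBD)

theorem sum_conv {n : ℕ} {V : Fin n → ℝ → ℝ} (hV : ∀ i, ConvexOn ℝ univ (V i)) (x y : E n) {a : ℝ}
    (ha0 : 0 ≤ a) (ha1 : a ≤ 1) :
    ∑ i, V i (((1 - a) • x + a • y) i) ≤ (1 - a) * ∑ i, V i (x i) + a * ∑ i, V i (y i) := by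
  rw [Finset.mul_sum, Finset.mul_sum, ← Finset.sum_add_distrib]
  refine Finset.sum_le_sum fun i _ => ?_
  have := (hV i).2 (mem_univ (x i)) (mem_univ (y i)) (by linarith : 0 ≤ 1 - a) ha0 (by ring)
  simpa [smul_eq_mul] using this

theorem cont_conv {V : ℝ → ℝ} (h : ConvexOn ℝ univ V) : Continuous V := by
  have := h.continuousOn isOpen_univ
  exact continuousOn_univ.1 this

theorem sum_cont {n : ℕ} {V : Fin n → ℝ → ℝ} (hV : ∀ i, ConvexOn ℝ univ (V i)) :
    Continuous fun x : E n => ∑ i, V i (x i) := by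
  refine continuous_finsetSum _ fun i _ => (cont_conv (hV i)).comp ?_
  fun_prop

/-- a sublevel set containing a ray from a point of a smaller sublevel set -/
theorem ray_le {n : ℕ} {V : Fin n → ℝ → ℝ} (hV : ∀ i, ConvexOn ℝ univ (V i)) (x v : E n) (c : ℝ)
    (h : ∀ τ : ℝ, 0 ≤ τ → ∑ i, V i ((x + τ • v) i) ≤ c) (τ : ℝ) (hτ : 0 ≤ τ) :
    ∑ i, V i ((x + τ • v) i) ≤ ∑ i, V i (x i) := by
  by_contra hlt
  rw [not_le] at hlt
  set d := ∑ i, V i ((x + τ • v) i) - ∑ i, V i (x i) with hd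
  have hd0 : 0 < d := by rw [hd]; linarith
  obtain ⟨N, hN⟩ := exists_nat_gt ((c - ∑ i, V i (x i)) / d)
  have hN1 : (0 : ℝ) < (N + 1 : ℕ) := by positivity
  have h1 := h ((N + 1 : ℕ) * τ) (mul_nonneg hN1.le hτ)
  have h2 := sum_conv hV x (x + (((N + 1 : ℕ) : ℝ) * τ) • v) (a := 1 / (N + 1 : ℕ))
    (by positivity) (by
      rw [div_le_one hN1]
      push_cast
      have : (0 : ℝ) ≤ N := N.cast_nonneg
      linarith)
  have h3 : (1 - 1 / ((N + 1 : ℕ) : ℝ)) • x + (1 / ((N + 1 : ℕ) : ℝ)) •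
      (x + (((N + 1 : ℕ) : ℝ) * τ) • v) = x + τ • v := by
    rw [smul_add, smul_smul, ← add_assoc, ← add_smul]
    have e1 : 1 - 1 / ((N + 1 : ℕ) : ℝ) + 1 / ((N + 1 : ℕ) : ℝ) = 1 := by ring
    have e2 : 1 / ((N + 1 : ℕ) : ℝ) * (((N + 1 : ℕ) : ℝ) * τ) = τ := by
      field_simp
    rw [e1, e2, one_smul]
  rw [h3] at h2
  have h4 : ((N + 1 : ℕ) : ℝ) * d ≤ c - ∑ i, V i (x i) := by
    have h5 : ∑ i, V i ((x + τ • v) i) ≤ (1 - 1 / ((N + 1 : ℕ) : ℝ)) * ∑ i, V i (x i) +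
        1 / ((N + 1 : ℕ) : ℝ) * c := by
      refine h2.trans ?_
      have : 0 ≤ 1 / ((N + 1 : ℕ) : ℝ) := by positivity
      nlinarith
    have h6 : d ≤ 1 / ((N + 1 : ℕ) : ℝ) * (c - ∑ i, V i (x i)) := by
      rw [hd]
      linarith
    calc ((N + 1 : ℕ) : ℝ) * d ≤ ((N + 1 : ℕ) : ℝ) *
        (1 / ((N + 1 : ℕ) : ℝ) * (c - ∑ i, V i (x i))) := mul_le_mul_of_nonneg_left h6 hN1.le
      _ = c - ∑ i, V i (x i) := by field_simp
  rw [div_lt_iff₀ hd0] at hN
  push_cast at h4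
  nlinarith

/-- a closed convex unbounded set contains a ray from each of its points -/
theorem exists_ray {n : ℕ} (A : Set (E n)) (hA : Convex ℝ A) (hc : IsClosed A) (x0 : E n)
    (hx0 : x0 ∈ A) (hu : ¬ Bornology.IsBounded A) :
    ∃ v : E n, ‖v‖ = 1 ∧ ∀ τ : ℝ, 0 ≤ τ → x0 + τ • v ∈ A := by
  have h1 : ∀ m : ℕ, ∃ x ∈ A, (m : ℝ) < ‖x - x0‖ := by
    intro m
    by_contra h
    push Not at h
    apply hu
    refine (Metric.isBounded_closedBall (x := x0) (r := (m : ℝ))).subset fun x hx => ?_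
    rw [Metric.mem_closedBall, dist_eq_norm]
    exact h x hx
  choose x hxA hxm using h1
  have hpos : ∀ m, 0 < ‖x m - x0‖ := fun m => lt_of_le_of_lt (Nat.cast_nonneg m) (hxm m)
  set v : ℕ → E n := fun m => (‖x m - x0‖)⁻¹ • (x m - x0) with hv
  have hvs : ∀ m, v m ∈ Metric.sphere (0 : E n) 1 := by
    intro m
    rw [mem_sphere_zero_iff_norm, hv]
    simp only [norm_smul, norm_inv, norm_norm]
    exact inv_mul_cancel₀ (hpos m).ne'
  obtain ⟨w, hw, φ, hφ, hlim⟩ := (isCompact_sphere (0 : E n) 1).tendsto_subseq hvs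
  refine ⟨w, mem_sphere_zero_iff_norm.1 hw, fun τ hτ => ?_⟩
  have hlim2 : Tendsto (fun m => x0 + τ • v (φ m)) atTop (𝓝 (x0 + τ • w)) :=
    tendsto_const_nhds.add (hlim.const_smul τ)
  refine hc.mem_of_tendsto hlim2 ?_
  obtain ⟨M, hM⟩ := exists_nat_gt τ
  filter_upwards [eventually_ge_atTop M] with m hm
  have h2 : τ ≤ ‖x (φ m) - x0‖ := by
    have h3 : (M : ℝ) ≤ φ m := by exact_mod_cast hm.trans (hφ.id_le m)
    linarith [hxm (φ m)]
  have h4 : x0 + τ • v (φ m) = x0 + (τ / ‖x (φ m) - x0‖) • (x (φ m) - x0) := by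
    rw [hv]
    simp only [smul_smul, div_eq_mul_inv]
  rw [h4]
  exact hA.add_smul_sub_mem hx0 (hxA _) ⟨by positivity, (div_le_one (hpos _)).2 h2⟩

theorem t_OBD : S_OBD := by
  intro r n V e s hV hb hne
  obtain ⟨x0, hx0⟩ := hne
  set s' : Fin r → ℝ := fun j => max (s j) (e j) with hs'
  have hsub : SL V s ⊆ SL V s' := fun x hx j => (hx j).trans (le_max_left _ _)
  refine Bornology.IsBounded.subset ?_ hsub
  have hx0' : x0 ∈ SL V s' := fun j => (hx0 j).trans (le_max_right _ _)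
  have hconv : Convex ℝ (SL V s') := by
    intro x hx y hy a b ha hb' hab j
    have hb1 : b ≤ 1 := by linarith
    have ha' : a = 1 - b := by linarith
    rw [ha']
    refine (sum_conv (hV j) x y hb' hb1).trans ?_
    have h1 := hx j
    have h2 := hy j
    nlinarith
  have hclosed : IsClosed (SL V s') := by
    have : SL V s' = ⋂ j, {x : E n | ∑ i, V j i (x i) ≤ s' j} := by
      ext x
      simp [SL]
    rw [this]
    exact isClosed_iInter fun j => isClosed_le (sum_cont (hV j)) continuous_const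
  by_contra hu
  obtain ⟨v, hv1, hv⟩ := exists_ray _ hconv hclosed x0 hx0' hu
  have hray : ∀ τ : ℝ, 0 ≤ τ → x0 + τ • v ∈ SL V e := by
    intro τ hτ j
    exact (ray_le (hV j) x0 v (s' j) (fun τ hτ => hv τ hτ j) τ hτ).trans (hx0 j)
  obtain ⟨R, hR⟩ := hb.exists_norm_le
  have hR0 : 0 ≤ R := (norm_nonneg _).trans (hR x0 hx0)
  have h1 := hR _ (hray (R + ‖x0‖ + 1) (by positivity))
  have h2 : ‖(R + ‖x0‖ + 1) • v‖ ≤ ‖x0 + (R + ‖x0‖ + 1) • v‖ + ‖x0‖ := by
    have := norm_sub_le (x0 + (R + ‖x0‖ + 1) • v) x0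
    rwa [add_sub_cancel_left] at this
  rw [norm_smul, hv1, mul_one, Real.norm_eq_abs, abs_of_nonneg (by positivity)] at h2
  linarith

end Pool.Agent.N130.KM
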